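import Pool.Agent.TH732.CC.Rec

namespace Pool.Agent.TH732.CC

open Set Filter Topology

theorem exists_subgroup : ∃ G : Submodule (ZMod 2) XX,
    (∀ g : ℕ → G, ∃ a, MapClusterPt a atTop g) ∧
    (∀ (g : ℕ → G) (a : G), Tendsto g atTop (𝓝 a) → ∀ᶠ n in atTop, g n = a) ∧
    ∃ h : ℕ → G × G, ∀ a, ¬ MapClusterPt a atTop h := by
  classical
  obtain ⟨f, hf, hfi, hfs⟩ := exists_enum
  obtain ⟨x, E, hxinj, hE0, hE, hbad⟩ := exists_construction f hf hfi
  -- every sequence of infinite range has a subsequence of the form `lin E ∘ f ξ`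
  have hsub : ∀ g : ℕ → LinearMap.range (lin E), (Set.range g).Infinite →
      ∃ (φ : ℕ → ℕ) (ξ : II), StrictMono φ ∧ ∀ j, (g (φ j) : XX) = lin E (f ξ j) := by
    intro g hg
    choose v hv using fun n => LinearMap.mem_range.1 (g n).2
    have hvr : (Set.range v).Infinite := by
      intro hfin
      apply hg
      have h1 : (Set.range fun n => (g n : XX)).Finite := by
        have : (Set.range fun n => (g n : XX)) = lin E '' Set.range v := by
          rw [← Set.range_comp]
          congr 1
          funext n
          exact (hv n).symm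
        rw [this]
        exact hfin.image _
      have h2 : Set.range g = (Subtype.val : LinearMap.range (lin E) → XX) ⁻¹'
          (Set.range fun n => (g n : XX)) := by
        ext a
        simp only [Set.mem_range, Set.mem_preimage]
        constructor
        · rintro ⟨n, rfl⟩; exact ⟨n, rfl⟩
        · rintro ⟨n, hn⟩; exact ⟨n, Subtype.ext hn⟩
      rw [h2]
      exact h1.preimage Subtype.val_injective.injOn
    obtain ⟨φ, hφ, hind⟩ := exists_indep_subseq (K := ZMod 2) v hvr
    obtain ⟨ξ, hξ⟩ := hfs _ hind
    refine ⟨φ, ξ, hφ, fun j => ?_⟩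
    rw [hξ]
    exact (hv _).symm
  refine ⟨LinearMap.range (lin E), ?_, ?_, ?_⟩
  · -- cluster points
    intro g
    by_cases hg : (Set.range g).Finite
    · have : Finite (Set.range g) := hg.to_subtype
      obtain ⟨a, ha⟩ := Finite.exists_infinite_fiber (Set.rangeFactorization g)
      refine ⟨a, ?_⟩
      rw [mapClusterPt_iff_frequently]
      intro W hW
      have hinf : {n | Set.rangeFactorization g n = a}.Infinite := Set.infinite_coe_iff.1 ha
      rw [Nat.frequently_atTop_iff_infinite]
      refine hinf.mono ?_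
      intro n hn
      have h1 : g n = a := congrArg Subtype.val hn
      show g n ∈ W
      rw [h1]
      exact mem_of_mem_nhds hW
    · obtain ⟨φ, ξ, hφ, hgf⟩ := hsub g hg
      refine ⟨⟨E (Sum.inr ξ), ⟨Finsupp.single (Sum.inr ξ) 1, lin_single E _⟩⟩, ?_⟩
      refine MapClusterPt.of_comp (φ := φ) (p := atTop) hφ.tendsto_atTop ?_
      rw [mapClusterPt_iff_ultrafilter]
      refine ⟨pp (x ξ), pp_atTop _, ?_⟩
      rw [tendsto_subtype_rng]
      rw [tendsto_pi_nhds]
      intro s
      have h1 : ∀ᶠ j in (pp (x ξ) : Filter ℕ),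
          E (Sum.inr ξ) s = ((g ∘ φ) j : XX) s := by
        filter_upwards [ulim_spec (pp (x ξ)) (fun j => lin E (f ξ j) s)] with j hj
        rw [hE ξ s, ← hj, Function.comp_apply, hgf j]
      exact Tendsto.congr' h1 tendsto_const_nhds
  · -- no convergent sequences
    intro g a hga
    have hfin : (Set.range g).Finite := by
      by_contra hinf
      obtain ⟨φ, ξ, hφ, hgf⟩ := hsub g hinf
      obtain ⟨ζ, hζ⟩ := bdd_II {ξ} (Set.countable_singleton _)
      have hζ' : ξ < ζ := hζ ξ rfl
      obtain ⟨s, h1, h0⟩ := key x E f ξ hxinj.injOn hE0 (fun η _ s => hE η s) hf hfi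
        (x ξ) (x ζ) (fun h => (ne_of_lt hζ') (hxinj h))
        (fun η hη h => (ne_of_lt hη) (hxinj h))
        (fun η hη h => (ne_of_lt (hη.trans hζ')) (hxinj h)) (f ξ) (hf ξ) (hfi ξ)
      have hconv : ∀ y : Lbl, ulim (pp y) (fun j => lin E (f ξ j) s) = (a : XX) s := by
        intro y
        have h2 : Tendsto (fun j => ((g (φ j) : XX)) s) atTop (𝓝 ((a : XX) s)) := by
          have h3 : Tendsto (fun j => (g (φ j) : XX)) atTop (𝓝 (a : XX)) :=
            (continuous_subtype_val.tendsto a).comp (hga.comp hφ.tendsto_atTop)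
          exact (tendsto_pi_nhds.1 h3) s
        rw [nhds_discrete, tendsto_pure] at h2
        apply ulim_eq
        filter_upwards [pp_atTop y h2] with j hj
        rw [← hgf j]
        exact hj
      rw [hconv] at h1 h0
      rw [h1] at h0
      exact one_ne_zero h0
    by_contra hne
    rw [Filter.not_eventually] at hne
    have h1 : {n | ¬ g n = a}.Infinite := Nat.frequently_atTop_iff_infinite.1 hne
    have h2 : (g '' {n | ¬ g n = a}).Finite := hfin.subset (Set.image_subset_range _ _)
    have h3 : ∀ᶠ n in atTop, g n ∈ (g '' {n | ¬ g n = a})ᶜ := by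
      apply hga
      apply h2.isClosed.isOpen_compl.mem_nhds
      rintro ⟨n, hn, hn'⟩
      exact hn hn'
    obtain ⟨n, hn, hn'⟩ := (hne.and_eventually h3).exists
    exact hn' ⟨n, hn, rfl⟩
  · -- the square
    have hmem : ∀ n, E (Sum.inl n) ∈ LinearMap.range (lin E) := fun n =>
      ⟨Finsupp.single (Sum.inl n) 1, lin_single E _⟩
    refine ⟨fun n => (⟨E (Sum.inl (2 * n)), hmem _⟩, ⟨E (Sum.inl (2 * n + 1)), hmem _⟩), ?_⟩
    rintro ⟨a, b⟩ hab
    rw [mapClusterPt_iff_ultrafilter] at hab
    obtain ⟨q, hq, hlim⟩ := hab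
    rw [nhds_prod_eq, tendsto_prod_iff'] at hlim
    have hA : ∀ s : ℕ → ZMod 2, ∀ᶠ n in (q : Filter ℕ), s (2 * n) = (a : XX) s := by
      intro s
      have h1 : Tendsto (fun n => E (Sum.inl (2 * n))) q (𝓝 (a : XX)) :=
        (continuous_subtype_val.tendsto a).comp hlim.1
      have h2 := (tendsto_pi_nhds.1 h1) s
      rw [nhds_discrete, tendsto_pure] at h2
      filter_upwards [h2] with n hn
      rw [← hn, hE0]
    have hB : ∀ s : ℕ → ZMod 2, ∀ᶠ n in (q : Filter ℕ), s (2 * n + 1) = (b : XX) s := by
      intro s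
      have h1 : Tendsto (fun n => E (Sum.inl (2 * n + 1))) q (𝓝 (b : XX)) :=
        (continuous_subtype_val.tendsto b).comp hlim.2
      have h2 := (tendsto_pi_nhds.1 h1) s
      rw [nhds_discrete, tendsto_pure] at h2
      filter_upwards [h2] with n hn
      rw [← hn, hE0]
    -- consequences for the shifts
    have hs0 : ∀ s, (b : XX) (sh0 s) = (a : XX) s := by
      intro s
      obtain ⟨n, h1, h2⟩ := ((hB (sh0 s)).and (hA s)).exists
      rw [← h1, ← h2]
      have : (2 * n + 1) % 2 = 1 := by omega
      simp [sh0, this]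
    have hs0' : ∀ s, (a : XX) (sh0 s) = 0 := by
      intro s
      obtain ⟨n, h1⟩ := (hA (sh0 s)).exists
      rw [← h1]
      have : ¬ ((2 * n) % 2 = 1) := by omega
      simp [sh0]
    have hs1 : ∀ s, (a : XX) (sh1 s) = (b : XX) s := by
      intro s
      obtain ⟨n, h1, h2⟩ := ((hA (sh1 s)).and (hB s)).exists
      rw [← h1, ← h2]
      have : (2 * n) % 2 = 0 := by omega
      simp [sh1]
    obtain ⟨v, hv⟩ := a.2
    obtain ⟨w, hw⟩ := b.2
    have hchar : ∀ c : ZMod 2, c + c = 0 := by decide
    set M : Set II := {η | v (Sum.inr η) ≠ 0 ∨ w (Sum.inr η) ≠ 0} with hM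
    have hMfin : M.Finite := by
      have : M ⊆ (Sum.inr : II → ℕ ⊕ II) ⁻¹' ((v.support ∪ w.support : Finset _) : Set (ℕ ⊕ II)) := by
        intro η hη
        simp only [Set.mem_preimage, Finset.coe_union, Set.mem_union, Finset.mem_coe,
          Finsupp.mem_support_iff]
        exact hη
      exact ((Finset.finite_toSet _).preimage Sum.inr_injective.injOn).subset this
    rcases M.eq_empty_or_nonempty with hMe | hMne
    · -- base case
      have hvs : ∀ b ∈ v.support, ∃ n, b = Sum.inl n := by
        rintro (n | η) hb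
        · exact ⟨n, rfl⟩
        · exfalso
          have : η ∈ M := Or.inl (Finsupp.mem_support_iff.1 hb)
          rw [hMe] at this
          exact this
      set s : ℕ → ZMod 2 := fun n => if Sum.inl n ∈ v.support then 0 else 1 with hs
      have h0 : (a : XX) s = 0 := by
        rw [← hv, lin_apply]
        refine Finset.sum_eq_zero fun b hb => ?_
        obtain ⟨n, rfl⟩ := hvs b hb
        simp only [hE0, hs, if_pos hb, mul_zero]
      have h1 : ∀ᶠ n in (q : Filter ℕ), Sum.inl (2 * n) ∉ v.support := by
        apply hq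
        have hfin : {n : ℕ | (Sum.inl (2 * n) : ℕ ⊕ II) ∈ v.support}.Finite := by
          have : {n : ℕ | (Sum.inl (2 * n) : ℕ ⊕ II) ∈ v.support} =
              (fun n : ℕ => (Sum.inl (2 * n) : ℕ ⊕ II)) ⁻¹' (v.support : Set (ℕ ⊕ II)) := rfl
          rw [this]
          apply (Finset.finite_toSet _).preimage
          intro a _ b _ hab
          have := Sum.inl_injective hab
          simpa using this
        have := hfin.compl_mem_cofinite
        rw [Nat.cofinite_eq_atTop] at this
        exact this
      obtain ⟨n, h2, h3⟩ := ((hA s).and h1).exists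
      rw [h0] at h2
      simp only [hs, if_neg h3] at h2
      exact one_ne_zero h2
    · -- inductive case
      have hMne' : hMfin.toFinset.Nonempty := by
        rwa [Set.Finite.toFinset_nonempty]
      set ξ := hMfin.toFinset.max' hMne' with hξ
      have hξM : ξ ∈ M := by
        have := Finset.max'_mem hMfin.toFinset hMne'
        rwa [Set.Finite.mem_toFinset] at this
      have hξmax : ∀ η ∈ M, η ≤ ξ := fun η hη =>
        Finset.le_max' _ _ (by rwa [Set.Finite.mem_toFinset])
      have hsuppv : v.erase (Sum.inr ξ) ∈ Finsupp.supported (ZMod 2) (ZMod 2) (Below ξ) := by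
        rw [Finsupp.mem_supported]
        rintro b hb η rfl
        have hb' : Sum.inr η ∈ (v.erase (Sum.inr ξ)).support := hb
        rw [Finsupp.support_erase, Finset.mem_erase] at hb'
        have h1 : η ∈ M := Or.inl (Finsupp.mem_support_iff.1 hb'.2)
        refine lt_of_le_of_ne (hξmax η h1) ?_
        rintro h
        exact hb'.1 (by rw [h])
      have hsuppw : w.erase (Sum.inr ξ) ∈ Finsupp.supported (ZMod 2) (ZMod 2) (Below ξ) := by
        rw [Finsupp.mem_supported]
        rintro b hb η rfl
        have hb' : Sum.inr η ∈ (w.erase (Sum.inr ξ)).support := hb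
        rw [Finsupp.support_erase, Finset.mem_erase] at hb'
        have h1 : η ∈ M := Or.inr (Finsupp.mem_support_iff.1 hb'.2)
        refine lt_of_le_of_ne (hξmax η h1) ?_
        rintro h
        exact hb'.1 (by rw [h])
      have hdec : ∀ u : VV II, ∀ s, lin E u s =
          lin E (u.erase (Sum.inr ξ)) s + u (Sum.inr ξ) * E (Sum.inr ξ) s := by
        intro u s
        conv_lhs => rw [← Finsupp.erase_add_single (Sum.inr ξ) u]
        rw [map_add, Pi.add_apply]
        congr 1
        rw [lin, Finsupp.linearCombination_single, Pi.smul_apply, smul_eq_mul]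
      have ha : ∀ s, (a : XX) s = lin E (v.erase (Sum.inr ξ)) s +
          v (Sum.inr ξ) * E (Sum.inr ξ) s := fun s => by rw [← hv]; exact hdec v s
      have hb : ∀ s, (b : XX) s = lin E (w.erase (Sum.inr ξ)) s +
          w (Sum.inr ξ) * E (Sum.inr ξ) s := fun s => by rw [← hw]; exact hdec w s
      apply hbad ξ
      rcases zmod2_cases (v (Sum.inr ξ)) with hv0 | hv1
      · rcases zmod2_cases (w (Sum.inr ξ)) with hw0 | hw1
        · rcases hξM with h | h
          · exact absurd hv0 h
          · exact absurd hw0 h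
        · refine ⟨w.erase (Sum.inr ξ), hsuppw, v.erase (Sum.inr ξ), hsuppv, Or.inr ?_⟩
          funext s
          have h1 := hs1 s
          rw [ha, hb, hv0, hw1, zero_mul, add_zero, one_mul] at h1
          rw [h1, ← add_assoc, hchar, zero_add]
      · rcases zmod2_cases (w (Sum.inr ξ)) with hw0 | hw1
        · refine ⟨v.erase (Sum.inr ξ), hsuppv, w.erase (Sum.inr ξ), hsuppw, Or.inl ?_⟩
          funext s
          have h1 := hs0 s
          rw [ha, hb, hv1, hw0, zero_mul, add_zero, one_mul] at h1
          rw [h1, ← add_assoc, hchar, zero_add]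
        · refine ⟨v.erase (Sum.inr ξ), hsuppv, v.erase (Sum.inr ξ) + w.erase (Sum.inr ξ),
            Submodule.add_mem _ hsuppv hsuppw, Or.inl ?_⟩
          funext s
          have h1 := hs0 s
          have h2 := hs0' s
          rw [ha] at h2
          rw [ha s, hb, hv1, hw1, one_mul, one_mul] at h1
          rw [hv1, one_mul] at h2
          rw [map_add, Pi.add_apply]
          have h3 : E (Sum.inr ξ) (sh0 s) = lin E (v.erase (Sum.inr ξ)) (sh0 s) := by
            have := hchar (lin E (v.erase (Sum.inr ξ)) (sh0 s))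
            exact add_left_cancel (h2.trans this.symm)
          rw [h3] at h1
          have h4 : lin E (v.erase (Sum.inr ξ)) (sh0 s) + lin E (w.erase (Sum.inr ξ)) (sh0 s) =
              lin E (v.erase (Sum.inr ξ)) s + E (Sum.inr ξ) s := by
            rw [add_comm, h1]
          rw [h4, ← add_assoc, hchar, zero_add]

end Pool.Agent.TH732.CC
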