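import Pool.Agent.TH732.CC.Ul

namespace Pool.Agent.TH732.CC

open Set Filter

/-- The big compact group. -/
abbrev XX : Type := (ℕ → ZMod 2) → ZMod 2

/-- Basis elements indexed below `ξ`. -/
def Below {I : Type} [LinearOrder I] (ξ : I) : Set (ℕ ⊕ I) := {b | ∀ η, b = Sum.inr η → η < ξ}

/-- The formal vector space. -/
abbrev VV (I : Type) : Type := (ℕ ⊕ I) →₀ ZMod 2

/-- The linear extension. -/
noncomputable def lin {I : Type} (E : ℕ ⊕ I → XX) : VV I →ₗ[ZMod 2] XX :=
  Finsupp.linearCombination (ZMod 2) E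

theorem lin_single {I : Type} (E : ℕ ⊕ I → XX) (b : ℕ ⊕ I) : lin E (Finsupp.single b 1) = E b := by
  simp [lin]

theorem lin_apply {I : Type} (E : ℕ ⊕ I → XX) (v : VV I) (s : ℕ → ZMod 2) :
    lin E v s = v.sum fun b c => c * E b s := by
  simp only [lin, Finsupp.linearCombination_apply, Finsupp.sum, Finset.sum_apply, Pi.smul_apply,
    smul_eq_mul]

theorem lin_eq_of_basis {I : Type} (E : ℕ ⊕ I → XX) (s : ℕ → ZMod 2)
    (Φ : VV I →ₗ[ZMod 2] ZMod 2) (v : VV I)
    (h : ∀ b ∈ v.support, E b s = Φ (Finsupp.single b 1)) : lin E v s = Φ v := by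
  rw [lin_apply]
  conv_rhs => rw [← Finsupp.sum_single v]
  rw [Finsupp.sum, Finsupp.sum, map_sum]
  refine Finset.sum_congr rfl fun b hb => ?_
  rw [h b hb, ← smul_eq_mul, ← map_smul, Finsupp.smul_single, smul_eq_mul, mul_one]

theorem lin_congr {I : Type} (E E' : ℕ ⊕ I → XX) (v : VV I)
    (h : ∀ b ∈ v.support, E b = E' b) : lin E v = lin E' v := by
  funext s
  rw [lin_apply, lin_apply]
  exact Finset.sum_congr rfl fun b hb => by simp only [h b hb]

section
variable {I : Type} [LinearOrder I] [WellFoundedLT I]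

/-- Direct dependence. -/
def Dep (f : I → ℕ → VV I) (η ζ : I) : Prop := ∃ j, Sum.inr ζ ∈ (f η j).support

omit [LinearOrder I] [WellFoundedLT I] in
theorem dep_countable (f : I → ℕ → VV I) (η : I) : {ζ | Dep f η ζ}.Countable := by
  have : {ζ | Dep f η ζ} = ⋃ j, (Sum.inr : I → ℕ ⊕ I) ⁻¹' ((f η j).support : Set (ℕ ⊕ I)) := by
    ext ζ; simp [Dep]
  rw [this]
  refine Set.countable_iUnion fun j => ?_
  exact ((f η j).support.finite_toSet.preimage Sum.inr_injective.injOn).countable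

omit [WellFoundedLT I] in
theorem dep_lt (f : I → ℕ → VV I)
    (hf : ∀ ξ j, f ξ j ∈ Finsupp.supported (ZMod 2) (ZMod 2) (Below ξ)) {η ζ : I}
    (h : Dep f η ζ) : ζ < η := by
  obtain ⟨j, hj⟩ := h
  exact (Finsupp.mem_supported _ _).1 (hf η j) hj ζ rfl

theorem deps_countable (f : I → ℕ → VV I)
    (hf : ∀ ξ j, f ξ j ∈ Finsupp.supported (ZMod 2) (ZMod 2) (Below ξ)) (η : I) :
    {ζ | Relation.ReflTransGen (Dep f) η ζ}.Countable := by
  induction η using WellFoundedLT.induction with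
  | ind η ih =>
    have h1 : {ζ | Relation.ReflTransGen (Dep f) η ζ} ⊆
        {η} ∪ ⋃ θ ∈ {θ | Dep f η θ}, {ζ | Relation.ReflTransGen (Dep f) θ ζ} := by
      intro ζ hζ
      rcases Relation.ReflTransGen.cases_head hζ with h | ⟨θ, h, h'⟩
      · left; exact h.symm
      · right
        simp only [Set.mem_iUnion]
        exact ⟨θ, h, h'⟩
    refine Set.Countable.mono h1 ((Set.countable_singleton _).union ?_)
    exact (dep_countable f η).biUnion fun θ hθ => ih θ (dep_lt f hf hθ)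

omit [WellFoundedLT I] in
theorem deps_le (f : I → ℕ → VV I)
    (hf : ∀ ξ j, f ξ j ∈ Finsupp.supported (ZMod 2) (ZMod 2) (Below ξ)) {η ζ : I}
    (h : Relation.ReflTransGen (Dep f) η ζ) : ζ ≤ η := by
  induction h with
  | refl => exact le_rfl
  | tail _ h ih => exact (dep_lt f hf h).le.trans ih

omit [WellFoundedLT I] in
/-- A linearly independent sequence shifted by a new basis vector is linearly independent. -/
theorem shift_indep (η : I) (u : ℕ → VV I)
    (hu : ∀ j, u j ∈ Finsupp.supported (ZMod 2) (ZMod 2) (Below η))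
    (hi : LinearIndependent (ZMod 2) u) :
    LinearIndependent (ZMod 2) (fun j => u j - Finsupp.single (Sum.inr η) 1) := by
  set P : VV I →ₗ[ZMod 2] VV I := LinearMap.id -
    (Finsupp.lapply (Sum.inr η) : VV I →ₗ[ZMod 2] ZMod 2).smulRight
      (Finsupp.single (Sum.inr η) (1 : ZMod 2)) with hP
  have h0 : ∀ j, (u j) (Sum.inr η) = 0 := by
    intro j
    by_contra h
    have := (Finsupp.mem_supported _ _).1 (hu j) (Finsupp.mem_support_iff.2 h) η rfl
    exact lt_irrefl _ this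
  have hPu : ∀ j, P (u j - Finsupp.single (Sum.inr η) 1) = u j := by
    intro j
    rw [hP]
    simp only [LinearMap.sub_apply, LinearMap.id_coe, id_eq, LinearMap.smulRight_apply,
      Finsupp.lapply_apply, Finsupp.sub_apply, h0 j, Finsupp.single_eq_same]
    rw [zero_sub, neg_smul, one_smul, sub_neg_eq_add, sub_add_cancel]
  apply LinearIndependent.of_comp P
  have : P ∘ (fun j => u j - Finsupp.single (Sum.inr η) 1) = u := by
    funext j
    exact hPu j
  rw [this]
  exact hi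

theorem key (x : I → Lbl) (E : ℕ ⊕ I → XX) (f : I → ℕ → VV I) (ξ : I)
    (hx : Set.InjOn x (Set.Iio ξ))
    (hE0 : ∀ n s, E (Sum.inl n) s = s n)
    (hE : ∀ η < ξ, ∀ s, E (Sum.inr η) s = ulim (pp (x η)) (fun j => lin E (f η j) s))
    (hf : ∀ ξ j, f ξ j ∈ Finsupp.supported (ZMod 2) (ZMod 2) (Below ξ))
    (hfi : ∀ ξ, LinearIndependent (ZMod 2) (f ξ))
    (y y' : Lbl) (hne : y ≠ y') (hy : ∀ η < ξ, x η ≠ y) (hy' : ∀ η < ξ, x η ≠ y')
    (g : ℕ → VV I) (hg : ∀ j, g j ∈ Finsupp.supported (ZMod 2) (ZMod 2) (Below ξ))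
    (hgi : LinearIndependent (ZMod 2) g) :
    ∃ s, ulim (pp y) (fun j => lin E (g j) s) = 1 ∧
      ulim (pp y') (fun j => lin E (g j) s) = 0 := by
  classical
  set D : Set I := ⋃ η ∈ {η | ∃ j, Sum.inr η ∈ (g j).support},
    {ζ | Relation.ReflTransGen (Dep f) η ζ} with hD
  have hDmem : ∀ ζ, ζ ∈ D ↔ ∃ η j, Sum.inr η ∈ (g j).support ∧
      Relation.ReflTransGen (Dep f) η ζ := by
    intro ζ
    simp only [hD, Set.mem_iUnion, Set.mem_ofPred_eq]
    constructor
    · rintro ⟨η, ⟨j, hj⟩, h⟩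
      exact ⟨η, j, hj, h⟩
    · rintro ⟨η, j, hj, h⟩
      exact ⟨η, ⟨j, hj⟩, h⟩
  have hDc : D.Countable := by
    refine Set.Countable.biUnion ?_ fun η _ => deps_countable f hf η
    have : {η | ∃ j, Sum.inr η ∈ (g j).support} =
        ⋃ j, (Sum.inr : I → ℕ ⊕ I) ⁻¹' ((g j).support : Set (ℕ ⊕ I)) := by
      ext ζ; simp
    rw [this]
    exact Set.countable_iUnion fun j =>
      ((g j).support.finite_toSet.preimage Sum.inr_injective.injOn).countable
  have hDlt : ∀ ζ ∈ D, ζ < ξ := by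
    intro ζ hζ
    obtain ⟨η, j, hj, h⟩ := (hDmem ζ).1 hζ
    exact (deps_le f hf h).trans_lt ((Finsupp.mem_supported _ _).1 (hg j) hj η rfl)
  have hDcl : ∀ η ∈ D, ∀ j ζ, Sum.inr ζ ∈ (f η j).support → ζ ∈ D := by
    intro η hη j ζ hζ
    obtain ⟨θ, i, hi, h⟩ := (hDmem η).1 hη
    exact (hDmem ζ).2 ⟨θ, i, hi, h.tail ⟨j, hζ⟩⟩
  have hDg : ∀ j ζ, Sum.inr ζ ∈ (g j).support → ζ ∈ D := fun j ζ hζ =>
    (hDmem ζ).2 ⟨ζ, j, hζ, Relation.ReflTransGen.refl⟩
  set b : Lbl → ℕ → VV I := fun l j =>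
    if h : ∃ η, η ∈ D ∧ x η = l then f h.choose j - Finsupp.single (Sum.inr h.choose) 1 else g j
    with hb
  have hbD : ∀ η ∈ D, ∀ j, b (x η) j = f η j - Finsupp.single (Sum.inr η) 1 := by
    intro η hη j
    have h : ∃ η', η' ∈ D ∧ x η' = x η := ⟨η, hη, rfl⟩
    have h1 : h.choose = η :=
      hx (hDlt _ h.choose_spec.1) (hDlt _ hη) h.choose_spec.2
    have h2 : b (x η) j = f h.choose j - Finsupp.single (Sum.inr h.choose) 1 := by
      simp only [hb, dif_pos h]
    rw [h2, h1]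
  have hby : ∀ j, b y j = g j := by
    intro j
    have h : ¬ ∃ η, η ∈ D ∧ x η = y := by
      rintro ⟨η, hη, h⟩
      exact hy η (hDlt _ hη) h
    simp only [hb, dif_neg h]
  have hby' : ∀ j, b y' j = g j := by
    intro j
    have h : ¬ ∃ η, η ∈ D ∧ x η = y' := by
      rintro ⟨η, hη, h⟩
      exact hy' η (hDlt _ hη) h
    simp only [hb, dif_neg h]
  set L : Set Lbl := x '' D ∪ {y, y'} with hL
  have hLc : L.Countable := (hDc.image _).union (Set.toFinite _).countable
  obtain ⟨Φ, hΦ⟩ := exists_common_functional (K := ZMod 2) L hLc b (by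
    rintro l (⟨η, hη, rfl⟩ | hl)
    · have : b (x η) = fun j => f η j - Finsupp.single (Sum.inr η) 1 := by
        funext j; exact hbD η hη j
      rw [this]
      exact shift_indep η (f η) (hf η) (hfi η)
    · rcases hl with rfl | hl
      · have : b l = g := by funext j; exact hby j
        rw [this]; exact hgi
      · have hl' : l = y' := hl
        subst hl'
        have : b l = g := by funext j; exact hby' j
        rw [this]; exact hgi) (fun l _ => if l = y then 1 else 0)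
  refine ⟨fun n => Φ (Finsupp.single (Sum.inl n) 1), ?_⟩
  set s : ℕ → ZMod 2 := fun n => Φ (Finsupp.single (Sum.inl n) 1) with hs
  have hbasis : ∀ η, η ∈ D → E (Sum.inr η) s = Φ (Finsupp.single (Sum.inr η) 1) := by
    intro η
    induction η using WellFoundedLT.induction with
    | ind η ih =>
      intro hη
      rw [hE η (hDlt η hη) s]
      apply ulim_eq
      have h1 := hΦ (x η) (Or.inl ⟨η, hη, rfl⟩)
      filter_upwards [h1] with j hj
      have h2 : x η ≠ y := hy η (hDlt η hη)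
      rw [if_neg h2, hbD η hη j, map_sub, sub_eq_zero] at hj
      rw [← hj]
      apply lin_eq_of_basis
      rintro (n | ζ) hbs
      · rw [hE0]
      · exact ih ζ (dep_lt f hf ⟨j, hbs⟩) (hDcl η hη j ζ hbs)
  have hlin : ∀ j, lin E (g j) s = Φ (g j) := by
    intro j
    apply lin_eq_of_basis
    rintro (n | ζ) hbs
    · rw [hE0]
    · exact hbasis ζ (hDg j ζ hbs)
  constructor
  · apply ulim_eq
    filter_upwards [hΦ y (Or.inr (Or.inl rfl))] with j hj
    rw [hlin j, ← hby j, hj, if_pos rfl]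
  · apply ulim_eq
    filter_upwards [hΦ y' (Or.inr (Or.inr rfl))] with j hj
    rw [hlin j, ← hby' j, hj, if_neg (Ne.symm hne)]

end

end Pool.Agent.TH732.CC
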