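import Mathlib

namespace Pool.Agent.TH732.CC

open Set

/-- First-fit set of a sequence of vectors. -/
def FF {K V : Type*} [Field K] [AddCommGroup V] [Module K V] (b : ℕ → V) : Set ℕ :=
  {j | b j ∉ Submodule.span K (b '' Set.Iio j)}

section
variable {K V : Type*} [Field K] [AddCommGroup V] [Module K V]

theorem ff_indep (b : ℕ → V) : LinearIndependent K (fun j : FF (K := K) b => b j) := by
  classical
  rw [linearIndependent_iff']
  intro s g hg
  by_contra hcon
  push Not at hcon
  obtain ⟨i, his, hi⟩ := hcon
  set F := s.filter (fun i => g i ≠ 0) with hF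
  have hne : F.Nonempty := ⟨i, by simp [hF, his, hi]⟩
  set j := F.max' hne with hj
  have hjF : j ∈ F := Finset.max'_mem _ _
  have hjs : j ∈ s := (Finset.mem_filter.1 hjF).1
  have hgj : g j ≠ 0 := (Finset.mem_filter.1 hjF).2
  have hsum : ∑ i ∈ s.erase j, g i • b i = - (g j • b j) := by
    have := Finset.add_sum_erase s (fun i => g i • b (i : ℕ)) hjs
    rw [hg] at this
    exact eq_neg_of_add_eq_zero_right this
  have hmem : ∑ i ∈ s.erase j, g i • b (i : ℕ) ∈ Submodule.span K (b '' Set.Iio (j : ℕ)) := by
    refine Submodule.sum_mem _ fun i hi => ?_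
    by_cases h0 : g i = 0
    · simp [h0]
    · have hiF : i ∈ F := Finset.mem_filter.2 ⟨Finset.mem_of_mem_erase hi, h0⟩
      have hle : i ≤ j := Finset.le_max' _ _ hiF
      have hlt : i < j := lt_of_le_of_ne hle (Finset.ne_of_mem_erase hi)
      exact Submodule.smul_mem _ _ (Submodule.subset_span ⟨i, hlt, rfl⟩)
  rw [hsum, Submodule.neg_mem_iff, Submodule.smul_mem_iff _ hgj] at hmem
  exact j.2 hmem

theorem ff_span (b : ℕ → V) (j : ℕ) :
    b j ∈ Submodule.span K (b '' {i | i ≤ j ∧ i ∈ FF (K := K) b}) := by
  induction j using Nat.strong_induction_on with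
  | _ j ih =>
    by_cases hj : j ∈ FF (K := K) b
    · exact Submodule.subset_span ⟨j, ⟨le_rfl, hj⟩, rfl⟩
    · have h1 : b j ∈ Submodule.span K (b '' Set.Iio j) := by
        by_contra h
        exact hj h
      refine Submodule.span_le.2 ?_ h1
      rintro _ ⟨i, hi, rfl⟩
      refine Submodule.span_mono ?_ (ih i hi)
      apply Set.image_mono
      rintro k ⟨hk, hk'⟩
      exact ⟨hk.trans (le_of_lt hi), hk'⟩

theorem ff_count (b : ℕ → V) (a N : ℕ)
    (hind : LinearIndependent K (fun j : Set.Ico a N => b j)) :
    (Set.Ico a N \ FF (K := K) b).ncard ≤ a := by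
  classical
  set R : Finset ℕ := (Finset.Ico a N).filter (· ∈ FF (K := K) b) with hR
  set w : Finset V := (Finset.range a ∪ R).image b with hw
  have hsub : Set.range (fun j : Set.Ico a N => b j) ⊆ Submodule.span K (w : Set V) := by
    rintro _ ⟨⟨j, hj⟩, rfl⟩
    refine Submodule.span_mono ?_ (ff_span (K := K) b j)
    rintro _ ⟨i, ⟨hi, hi'⟩, rfl⟩
    simp only [hw, Finset.coe_image]
    refine ⟨i, ?_, rfl⟩
    simp only [hR, Finset.coe_union, Finset.coe_range, Finset.coe_filter, Set.mem_union,
      Set.mem_Iio, Set.mem_ofPred_eq, Finset.mem_Ico]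
    by_cases h : i < a
    · exact Or.inl h
    · exact Or.inr ⟨⟨not_lt.1 h, lt_of_le_of_lt hi hj.2⟩, hi'⟩
  have h1 := linearIndependent_le_span' _ hind (w : Set V) hsub
  have h2 : Fintype.card (w : Set V) ≤ a + R.card := by
    simp only [Finset.coe_sort_coe, Fintype.card_coe]
    calc w.card ≤ (Finset.range a ∪ R).card := Finset.card_image_le
      _ ≤ (Finset.range a).card + R.card := Finset.card_union_le _ _
      _ = a + R.card := by simp
  have h3 : Cardinal.mk (Set.Ico a N) = ((Finset.Ico a N).card : Cardinal) := by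
    rw [← Finset.coe_Ico]
    simp
  rw [h3] at h1
  have h4 : (Finset.Ico a N).card ≤ a + R.card := by
    have := h1.trans (by exact_mod_cast h2 : ((Fintype.card (w : Set V) : ℕ) : Cardinal) ≤
      ((a + R.card : ℕ) : Cardinal))
    exact_mod_cast this
  have h5 : (Set.Ico a N \ FF (K := K) b) =
      (((Finset.Ico a N).filter (fun j => ¬ (j ∈ FF (K := K) b)) : Finset ℕ) : Set ℕ) := by
    ext j
    simp [and_assoc]
  rw [h5, Set.ncard_coe_finset]
  have h6 := Finset.card_filter_add_card_filter_not (s := Finset.Ico a N)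
    (fun j => j ∈ FF (K := K) b)
  have h7 : R.card = ((Finset.Ico a N).filter (fun j => j ∈ FF (K := K) b)).card := by
    rw [hR]
  omega

theorem exists_functional {ι : Type*} (v : ι → V) (hv : LinearIndependent K v) (c : ι → K) :
    ∃ Φ : V →ₗ[K] K, ∀ i, Φ (v i) = c i := by
  obtain ⟨g, hg⟩ := (Finsupp.linearCombination K v).exists_leftInverse_of_injective
    (by rw [LinearMap.ker_eq_bot]; exact hv)
  refine ⟨(Finsupp.linearCombination K c).comp g, fun i => ?_⟩
  have h := LinearMap.congr_fun hg (Finsupp.single i 1)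
  simp only [LinearMap.coe_comp, Function.comp_apply, Finsupp.linearCombination_single, one_smul,
    LinearMap.id_coe, id_eq] at h
  simp [h]

/-- A sequence of vectors over a finite field with infinite range has a linearly independent
subsequence. -/
theorem exists_indep_subseq [Finite K] (v : ℕ → V) (hv : (Set.range v).Infinite) :
    ∃ φ : ℕ → ℕ, StrictMono φ ∧ LinearIndependent K (v ∘ φ) := by
  classical
  have hinf : (FF (K := K) v).Infinite := by
    intro hfin
    apply hv
    have h1 : (Set.range v) ⊆ (Submodule.span K (v '' FF (K := K) v) : Set V) := by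
      rintro _ ⟨j, rfl⟩
      refine Submodule.span_mono ?_ (ff_span (K := K) v j)
      apply Set.image_mono
      rintro k ⟨_, hk'⟩
      exact hk'
    have h2 : (v '' FF (K := K) v).Finite := hfin.image _
    have : Module.Finite K (Submodule.span K (v '' FF (K := K) v)) :=
      Module.Finite.span_of_finite K h2
    have h3 : Finite (Submodule.span K (v '' FF (K := K) v)) := Module.finite_of_finite K
    exact Set.Finite.subset (Set.toFinite _) h1
  have : Infinite (FF (K := K) v) := hinf.to_subtype
  set e := Nat.orderEmbeddingOfSet (FF (K := K) v) with he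
  refine ⟨e, e.strictMono, ?_⟩
  have hmem : ∀ n, e n ∈ FF (K := K) v := by
    intro n
    have : e n ∈ Set.range e := ⟨n, rfl⟩
    rwa [he, Nat.orderEmbeddingOfSet_range] at this
  exact (ff_indep (K := K) v).comp
    (fun n => (⟨e n, hmem n⟩ : FF (K := K) v)) (by
      intro a b hab
      exact e.injective (congrArg Subtype.val hab))

end

end Pool.Agent.TH732.CC
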