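import Pool.Agent.TH732.CC.Key

namespace Pool.Agent.TH732.CC

open Set Filter Cardinal

theorem rec_exists {I α : Type} [LinearOrder I] [WellFoundedLT I] [Nonempty α]
    (P : I → (I → α) → α → Prop)
    (hcongr : ∀ ξ D D' a, (∀ η < ξ, D η = D' η) → P ξ D a → P ξ D' a)
    (hstep : ∀ ξ D, (∀ η < ξ, P η D (D η)) → ∃ a, P ξ D a) :
    ∃ D : I → α, ∀ ξ, P ξ D (D ξ) := by
  classical
  obtain ⟨a0⟩ := ‹Nonempty α›
  let ext : (ξ : I) → ((η : I) → η < ξ → α) → I → α := fun ξ r η =>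
    if h : η < ξ then r η h else a0
  let F : (ξ : I) → ((η : I) → η < ξ → α) → α := fun ξ r =>
    if h : ∃ a, P ξ (ext ξ r) a then h.choose else a0
  let D : I → α := (wellFounded_lt (α := I)).fix F
  have hD : ∀ ξ, D ξ = F ξ (fun η _ => D η) := fun ξ => WellFounded.fix_eq _ F ξ
  refine ⟨D, fun ξ => ?_⟩
  induction ξ using WellFoundedLT.induction with
  | ind ξ ih =>
    have hext : ∀ η < ξ, D η = ext ξ (fun η _ => D η) η := by
      intro η hη
      simp only [ext, dif_pos hη]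
    have h1 : ∀ η < ξ, P η (ext ξ (fun η _ => D η)) (ext ξ (fun η _ => D η) η) := by
      intro η hη
      rw [← hext η hη]
      exact hcongr η D _ _ (fun θ hθ => hext θ (hθ.trans hη)) (ih η hη)
    have h2 := hstep ξ _ h1
    have h3 : D ξ = h2.choose := by
      rw [hD ξ]
      simp only [F, dif_pos h2]
    rw [h3]
    exact hcongr ξ _ _ _ (fun η hη => (hext η hη).symm) h2.choose_spec

/-- The index set: the initial ordinal of the continuum. -/
abbrev II : Type := (Cardinal.continuum.{0}).ord.ToType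

theorem mk_II : #II = 𝔠 := by simp

theorem mk_Iio_II (ξ : II) : #(Set.Iio ξ) < 𝔠 := by
  have h : ord #II = Ordinal.type (α := II) (· < ·) := by simp
  have := Cardinal.mk_Iio_lt ξ h
  rwa [mk_II] at this

theorem bdd_II (S : Set II) (hS : S.Countable) : ∃ β, ∀ b ∈ S, b < β := by
  rw [← not_isCofinal_iff]
  intro hcof
  have h1 : Order.cof II ≤ #S := Order.cof_le hcof
  have h2 : Order.cof II = (𝔠).ord.cof := Ordinal.cof_toType _
  have h3 : ℵ₀ < (𝔠).ord.cof := by
    have := Cardinal.lt_cof_ord_power (a := ℵ₀) (b := 2) le_rfl (by norm_num)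
    rwa [Cardinal.two_power_aleph0] at this
  have h4 : #S ≤ ℵ₀ := Cardinal.le_aleph0_iff_set_countable.2 hS
  rw [h2] at h1
  exact absurd (h1.trans h4) (not_le.2 h3)

theorem mk_VV : #(VV II) = 𝔠 := by
  have : Infinite (ℕ ⊕ II) := inferInstance
  rw [VV, Cardinal.mk_finsupp_of_infinite]
  rw [Cardinal.mk_sum]
  simp
  exact (Cardinal.nat_lt_continuum 2).le

theorem mk_supp (ξ : II) :
    #(Finsupp.supported (ZMod 2) (ZMod 2) (Below ξ)) < 𝔠 := by
  have h1 := (Finsupp.supportedEquivFinsupp (M := ZMod 2) (R := ZMod 2) (Below ξ)).toEquiv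
  rw [Cardinal.mk_congr h1]
  have hinf : Infinite (Below ξ) := by
    apply Infinite.of_injective (fun n : ℕ => (⟨Sum.inl n, by intro η h; cases h⟩ : Below ξ))
    intro a b hab
    have := congrArg Subtype.val hab
    simpa using this
  rw [Cardinal.mk_finsupp_of_infinite]
  refine max_lt ?_ ?_
  · have hsub : Below ξ ⊆ (Set.range (Sum.inl : ℕ → ℕ ⊕ II)) ∪ (Sum.inr '' Set.Iio ξ) := by
      rintro (n | η) h
      · exact Or.inl ⟨n, rfl⟩
      · exact Or.inr ⟨η, h η rfl, rfl⟩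
    refine (Cardinal.mk_le_mk_of_subset hsub).trans_lt ?_
    refine (Cardinal.mk_union_le _ _).trans_lt ?_
    refine Cardinal.add_lt_of_lt Cardinal.aleph0_le_continuum ?_ ?_
    · refine Cardinal.mk_range_le.trans_lt ?_
      rw [Cardinal.mk_nat]
      exact Cardinal.aleph0_lt_continuum
    · exact Cardinal.mk_image_le.trans_lt (mk_Iio_II ξ)
  · exact (Cardinal.lt_aleph0_of_finite _).trans Cardinal.aleph0_lt_continuum

/-- Enumeration of the linearly independent sequences. -/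
theorem exists_enum : ∃ f : II → ℕ → VV II,
    (∀ ξ j, f ξ j ∈ Finsupp.supported (ZMod 2) (ZMod 2) (Below ξ)) ∧
    (∀ ξ, LinearIndependent (ZMod 2) (f ξ)) ∧
    ∀ g : ℕ → VV II, LinearIndependent (ZMod 2) g → ∃ ξ, f ξ = g := by
  classical
  have hcard : #II = #((ℕ → VV II) × II) := by
    rw [Cardinal.mk_prod, Cardinal.lift_id, Cardinal.lift_id, mk_II]
    have : #(ℕ → VV II) = 𝔠 := by
      rw [← Cardinal.power_def, mk_VV, Cardinal.mk_nat, Cardinal.continuum_power_aleph0]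
    rw [this, Cardinal.continuum_mul_self]
  obtain ⟨φ⟩ := Cardinal.eq.1 hcard
  let base : ℕ → VV II := fun n => Finsupp.single (Sum.inl n) 1
  let good : II → (ℕ → VV II) → Prop := fun ξ g =>
    (∀ j, g j ∈ Finsupp.supported (ZMod 2) (ZMod 2) (Below ξ)) ∧ LinearIndependent (ZMod 2) g
  have hbase : ∀ ξ, good ξ base := by
    intro ξ
    refine ⟨fun j => ?_, ?_⟩
    · apply Finsupp.single_mem_supported
      intro η h
      cases h
    · have := (Finsupp.basisSingleOne (R := ZMod 2) (ι := ℕ ⊕ II)).linearIndependent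
      have h2 := this.comp (Sum.inl : ℕ → ℕ ⊕ II) Sum.inl_injective
      have h3 : (⇑(Finsupp.basisSingleOne (R := ZMod 2) (ι := ℕ ⊕ II)) ∘ (Sum.inl : ℕ → ℕ ⊕ II))
          = base := by
        funext n
        simp [base]
      rw [h3] at h2
      exact h2
  refine ⟨fun ξ => if good ξ (φ ξ).1 then (φ ξ).1 else base, ?_, ?_, ?_⟩
  · intro ξ
    by_cases h : good ξ (φ ξ).1
    · simp only [if_pos h]; exact h.1
    · simp only [if_neg h]; exact (hbase ξ).1
  · intro ξ
    by_cases h : good ξ (φ ξ).1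
    · simp only [if_pos h]; exact h.2
    · simp only [if_neg h]; exact (hbase ξ).2
  · intro g hg
    obtain ⟨β, hβ⟩ := bdd_II {η | ∃ j, Sum.inr η ∈ (g j).support} (by
      have : {η | ∃ j, Sum.inr η ∈ (g j).support} =
          ⋃ j, (Sum.inr : II → ℕ ⊕ II) ⁻¹' ((g j).support : Set (ℕ ⊕ II)) := by
        ext ζ; simp
      rw [this]
      exact Set.countable_iUnion fun j =>
        ((g j).support.finite_toSet.preimage Sum.inr_injective.injOn).countable)
    have hex : ∃ ξ, (φ ξ).1 = g ∧ β ≤ ξ := by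
      by_contra hcon
      push Not at hcon
      have h1 : Function.Injective (fun i : II =>
          (⟨φ.symm (g, i), hcon _ (by simp)⟩ : Set.Iio β)) := by
        intro a b hab
        have := congrArg Subtype.val hab
        simpa using this
      have h2 := Cardinal.mk_le_of_injective h1
      rw [mk_II] at h2
      exact absurd h2 (not_le.2 (mk_Iio_II β))
    obtain ⟨ξ, hξ, hβξ⟩ := hex
    refine ⟨ξ, ?_⟩
    have hgood : good ξ (φ ξ).1 := by
      rw [hξ]
      refine ⟨fun j => ?_, hg⟩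
      rw [Finsupp.mem_supported]
      rintro b hb η rfl
      exact (hβ η ⟨j, hb⟩).trans_le hβξ
    simp only [if_pos hgood]
    exact hξ

/-- The two shift operators. -/
def sh0 (s : ℕ → ZMod 2) : ℕ → ZMod 2 := fun n => if n % 2 = 1 then s (n - 1) else 0

def sh1 (s : ℕ → ZMod 2) : ℕ → ZMod 2 := fun n => if n % 2 = 0 then s (n + 1) else 0

/-- Forbidden values at stage `ξ`. -/
def Bad (E : ℕ ⊕ II → XX) (ξ : II) : Set XX :=
  {e | ∃ v ∈ Finsupp.supported (ZMod 2) (ZMod 2) (Below ξ),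
    ∃ w ∈ Finsupp.supported (ZMod 2) (ZMod 2) (Below ξ),
      (e = fun s => lin E v s + lin E w (sh0 s)) ∨ (e = fun s => lin E v s + lin E w (sh1 s))}

theorem mk_Bad (E : ℕ ⊕ II → XX) (ξ : II) : #(Bad E ξ) < 𝔠 := by
  set W := Finsupp.supported (ZMod 2) (ZMod 2) (Below ξ) with hW
  have hsub : Bad E ξ ⊆
      (Set.range (fun p : W × W => fun s => lin E (p.1 : VV II) s + lin E (p.2 : VV II) (sh0 s))) ∪
      (Set.range (fun p : W × W => fun s => lin E (p.1 : VV II) s + lin E (p.2 : VV II) (sh1 s))) := by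
    rintro e ⟨v, hv, w, hw, h | h⟩
    · exact Or.inl ⟨(⟨v, hv⟩, ⟨w, hw⟩), h.symm⟩
    · exact Or.inr ⟨(⟨v, hv⟩, ⟨w, hw⟩), h.symm⟩
  have hWW : #(W × W) < 𝔠 := by
    rw [Cardinal.mk_prod, Cardinal.lift_id]
    exact Cardinal.mul_lt_of_lt Cardinal.aleph0_le_continuum (mk_supp ξ) (mk_supp ξ)
  refine (Cardinal.mk_le_mk_of_subset hsub).trans_lt ?_
  refine (Cardinal.mk_union_le _ _).trans_lt ?_
  exact Cardinal.add_lt_of_lt Cardinal.aleph0_le_continuum
    (Cardinal.mk_range_le.trans_lt hWW) (Cardinal.mk_range_le.trans_lt hWW)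

theorem bad_congr (E E' : ℕ ⊕ II → XX) (ξ : II) (h : ∀ b ∈ Below ξ, E b = E' b) :
    Bad E ξ = Bad E' ξ := by
  have h1 : ∀ v ∈ Finsupp.supported (ZMod 2) (ZMod 2) (Below ξ), lin E v = lin E' v := by
    intro v hv
    exact lin_congr E E' v fun b hb => h b ((Finsupp.mem_supported _ _).1 hv hb)
  ext e
  constructor
  · rintro ⟨v, hv, w, hw, h⟩
    refine ⟨v, hv, w, hw, ?_⟩
    rw [← h1 v hv, ← h1 w hw]
    exact h
  · rintro ⟨v, hv, w, hw, h⟩
    refine ⟨v, hv, w, hw, ?_⟩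
    rw [h1 v hv, h1 w hw]
    exact h

/-- The construction. -/
theorem exists_construction (f : II → ℕ → VV II)
    (hf : ∀ ξ j, f ξ j ∈ Finsupp.supported (ZMod 2) (ZMod 2) (Below ξ))
    (hfi : ∀ ξ, LinearIndependent (ZMod 2) (f ξ)) :
    ∃ (x : II → Lbl) (E : ℕ ⊕ II → XX), Function.Injective x ∧
      (∀ n s, E (Sum.inl n) s = s n) ∧
      (∀ ξ s, E (Sum.inr ξ) s = ulim (pp (x ξ)) (fun j => lin E (f ξ j) s)) ∧
      ∀ ξ, E (Sum.inr ξ) ∉ Bad E ξ := by
  classical
  let EE : (II → Lbl × XX) → (ℕ ⊕ II → XX) := fun D =>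
    Sum.elim (fun n s => s n) (fun η => (D η).2)
  let P : II → (II → Lbl × XX) → (Lbl × XX) → Prop := fun ξ D a =>
    (∀ η < ξ, (D η).1 ≠ a.1) ∧
    (∀ s, a.2 s = ulim (pp a.1) (fun j => lin (EE D) (f ξ j) s)) ∧ a.2 ∉ Bad (EE D) ξ
  have hEE : ∀ ξ D D', (∀ η < ξ, D η = D' η) → ∀ b ∈ Below ξ, EE D b = EE D' b := by
    intro ξ D D' h b hb
    rcases b with n | η
    · rfl
    · simp only [EE, Sum.elim_inr]
      rw [h η (hb η rfl)]
  obtain ⟨D, hD⟩ := rec_exists P (by
    rintro ξ D D' a h ⟨h1, h2, h3⟩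
    refine ⟨fun η hη => ?_, fun s => ?_, ?_⟩
    · rw [← h η hη]; exact h1 η hη
    · rw [h2 s]
      congr 1
      funext j
      rw [lin_congr (EE D) (EE D') (f ξ j) fun b hb =>
        hEE ξ D D' h b ((Finsupp.mem_supported _ _).1 (hf ξ j) hb)]
    · rw [← bad_congr (EE D) (EE D') ξ (hEE ξ D D' h)]
      exact h3) (by
    intro ξ D hprev
    let x : II → Lbl := fun η => (D η).1
    let C : Lbl → XX := fun y s => ulim (pp y) (fun j => lin (EE D) (f ξ j) s)
    have hx : Set.InjOn x (Set.Iio ξ) := by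
      intro a ha b hb hab
      rcases lt_trichotomy a b with h | h | h
      · exact absurd hab ((hprev b hb).1 a h)
      · exact h
      · exact absurd hab.symm ((hprev a ha).1 b h)
    have hCinj : ∀ y y', (∀ η < ξ, x η ≠ y) → (∀ η < ξ, x η ≠ y') → C y = C y' → y = y' := by
      intro y y' hy hy' hC
      by_contra hne
      obtain ⟨s, h1, h2⟩ := key x (EE D) f ξ hx (fun n s => rfl)
        (fun η hη s => (hprev η hη).2.1 s) hf hfi y y' hne hy hy' (f ξ) (hf ξ) (hfi ξ)
      have h3 : C y s = C y' s := by rw [hC]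
      rw [show C y s = 1 from h1, show C y' s = 0 from h2] at h3
      exact one_ne_zero h3
    by_contra hcon
    push Not at hcon
    have hall : ∀ y, (∀ η < ξ, x η ≠ y) → C y ∈ Bad (EE D) ξ := by
      intro y hy
      by_contra h
      exact hcon (y, C y) ⟨hy, fun s => rfl, h⟩
    have h1 : (Set.univ : Set Lbl) ⊆ x '' Set.Iio ξ ∪ {y | ∀ η < ξ, x η ≠ y} := by
      intro y _
      by_cases h : ∀ η < ξ, x η ≠ y
      · exact Or.inr h
      · push Not at h
        obtain ⟨η, hη, h⟩ := h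
        exact Or.inl ⟨η, hη, h⟩
    have h2 : #({y | ∀ η < ξ, x η ≠ y} : Set Lbl) < 𝔠 := by
      refine lt_of_le_of_lt ?_ (mk_Bad (EE D) ξ)
      refine Cardinal.mk_le_of_injective (f := fun y : ({y | ∀ η < ξ, x η ≠ y} : Set Lbl) =>
        (⟨C y, hall y y.2⟩ : Bad (EE D) ξ)) ?_
      intro a b hab
      exact Subtype.ext (hCinj a b a.2 b.2 (congrArg Subtype.val hab))
    have h3 : #(x '' Set.Iio ξ) < 𝔠 := Cardinal.mk_image_le.trans_lt (mk_Iio_II ξ)
    have h4 : #Lbl < 𝔠 := by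
      rw [← Cardinal.mk_univ]
      refine (Cardinal.mk_le_mk_of_subset h1).trans_lt ?_
      refine (Cardinal.mk_union_le _ _).trans_lt ?_
      exact Cardinal.add_lt_of_lt Cardinal.aleph0_le_continuum h3 h2
    have h5 : #Lbl = 𝔠 := by
      rw [← Cardinal.power_def]
      simp
    rw [h5] at h4
    exact lt_irrefl _ h4)
  refine ⟨fun ξ => (D ξ).1, EE D, ?_, fun n s => rfl, fun ξ s => (hD ξ).2.1 s,
    fun ξ => (hD ξ).2.2⟩
  intro a b hab
  rcases lt_trichotomy a b with h | h | h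
  · exact absurd hab ((hD b).1 a h)
  · exact h
  · exact absurd hab.symm ((hD a).1 b h)

end Pool.Agent.TH732.CC
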