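import Pool.Agent.TH732.CC.Lin

namespace Pool.Agent.TH732.CC

open Set Filter

/-- Labels. -/
abbrev Lbl : Type := ℕ → Bool

/-- The almost disjoint family. -/
def AD (x : Lbl) : Set ℕ := Set.range fun n : ℕ => Encodable.encode (List.ofFn (fun i : Fin n => x i))

theorem AD_infinite (x : Lbl) : (AD x).Infinite := by
  apply Set.infinite_range_of_injective
  intro a b hab
  have h := Encodable.encode_injective hab
  have := congrArg List.length h
  simpa using this

theorem AD_inter (x y : Lbl) (h : x ≠ y) : (AD x ∩ AD y).Finite := by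
  obtain ⟨k, hk⟩ := Function.ne_iff.1 h
  have hsub : AD x ∩ AD y ⊆
      (fun n : ℕ => Encodable.encode (List.ofFn (fun i : Fin n => x i))) '' (Set.Iic k) := by
    rintro _ ⟨⟨n, rfl⟩, ⟨m, hm⟩⟩
    refine ⟨n, ?_, rfl⟩
    by_contra hn
    have hn' : k < n := by simpa using hn
    have h1 := Encodable.encode_injective hm
    have h2 := congrArg List.length h1
    simp only [List.length_ofFn] at h2
    subst h2
    have h3 := List.ofFn_injective h1
    exact hk (congrFun h3 ⟨k, hn'⟩).symm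
  exact ((Set.finite_Iic k).image _).subset hsub

/-- Blocks. -/
def blk (m : ℕ) : Set ℕ := Set.Ico m.factorial (m + 1).factorial

theorem blk_finite (m : ℕ) : (blk m).Finite := Set.finite_Ico _ _

theorem blk_ncard (m : ℕ) : (blk m).ncard = m * m.factorial := by
  rw [blk, ← Finset.coe_Ico, Set.ncard_coe_finset, Nat.card_Ico, Nat.factorial_succ]
  rw [Nat.add_mul, one_mul, Nat.add_sub_cancel]

theorem blk_unique {m n j : ℕ} (hm : j ∈ blk m) (hn : j ∈ blk n) : m = n := by
  rcases lt_trichotomy m n with h | h | h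
  · have := Nat.factorial_le (Nat.succ_le_of_lt h)
    have h1 := hm.2
    have h2 := hn.1
    simp only [Nat.succ_eq_add_one] at this
    omega
  · exact h
  · have := Nat.factorial_le (Nat.succ_le_of_lt h)
    have h1 := hn.2
    have h2 := hm.1
    simp only [Nat.succ_eq_add_one] at this
    omega

/-- The filter attached to a set of block numbers. -/
def Fil (A : Set ℕ) : Filter ℕ where
  sets := {U | ∃ k N : ℕ, ∀ m ∈ A, N ≤ m → (blk m \ U).ncard ≤ k * m.factorial}
  univ_sets := ⟨0, 0, fun m _ _ => by simp⟩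
  sets_of_superset := by
    rintro U W ⟨k, N, h⟩ hUW
    refine ⟨k, N, fun m hm hN => le_trans ?_ (h m hm hN)⟩
    exact Set.ncard_le_ncard (fun j hj => ⟨hj.1, fun h => hj.2 (hUW h)⟩)
      ((blk_finite m).subset (fun j hj => hj.1))
  inter_sets := by
    rintro U W ⟨k, N, h⟩ ⟨k', N', h'⟩
    refine ⟨k + k', max N N', fun m hm hN => ?_⟩
    have h1 := h m hm ((le_max_left _ _).trans hN)
    have h2 := h' m hm ((le_max_right _ _).trans hN)
    have h3 : blk m \ (U ∩ W) = (blk m \ U) ∪ (blk m \ W) := by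
      ext j; simp only [Set.mem_sdiff, Set.mem_inter_iff, Set.mem_union]; tauto
    rw [h3, Nat.add_mul]
    exact (Set.ncard_union_le _ _).trans (Nat.add_le_add h1 h2)

theorem mem_Fil {A U : Set ℕ} : U ∈ Fil A ↔
    ∃ k N : ℕ, ∀ m ∈ A, N ≤ m → (blk m \ U).ncard ≤ k * m.factorial := Iff.rfl

theorem Fil_neBot {A : Set ℕ} (hA : A.Infinite) : (Fil A).NeBot := by
  rw [Filter.neBot_iff]
  intro hbot
  have : (∅ : Set ℕ) ∈ Fil A := by rw [hbot]; trivial
  obtain ⟨k, N, h⟩ := mem_Fil.1 this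
  obtain ⟨m, hm, hmk⟩ := hA.exists_gt (max k N)
  have h1 := h m hm ((le_max_right _ _).trans hmk.le)
  rw [Set.sdiff_empty, blk_ncard] at h1
  have h2 : m ≤ k := Nat.le_of_mul_le_mul_right h1 (Nat.factorial_pos m)
  have h3 : k ≤ max k N := le_max_left _ _
  omega

theorem Fil_cofinite (A : Set ℕ) : Fil A ≤ atTop := by
  intro U hU
  obtain ⟨N, hN⟩ := mem_atTop_sets.1 hU
  refine mem_Fil.2 ⟨0, N, fun m _ hm => ?_⟩
  have : blk m \ U = ∅ := by
    ext j
    simp only [Set.mem_sdiff, Set.mem_empty_iff_false, iff_false, not_and, not_not]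
    intro hj
    exact hN j (hm.trans ((Nat.self_le_factorial m).trans hj.1))
  simp [this]

instance instNeBotFil (x : Lbl) : (Fil (AD x)).NeBot := Fil_neBot (AD_infinite x)

/-- The ultrafilter with label `x`. -/
noncomputable def pp (x : Lbl) : Ultrafilter ℕ := Ultrafilter.of (Fil (AD x))

theorem pp_le (x : Lbl) : (pp x : Filter ℕ) ≤ Fil (AD x) := Ultrafilter.of_le _

theorem pp_atTop (x : Lbl) : (pp x : Filter ℕ) ≤ atTop := (pp_le x).trans (Fil_cofinite _)

theorem disjointify (L : Set Lbl) (hL : L.Countable) :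
    ∃ A' : Lbl → Set ℕ, (∀ l ∈ L, A' l ⊆ AD l ∧ (AD l \ A' l).Finite) ∧
      ∀ l ∈ L, ∀ l' ∈ L, l ≠ l' → Disjoint (A' l) (A' l') := by
  obtain ⟨ι, hι⟩ := Set.countable_iff_exists_injOn.1 hL
  refine ⟨fun l => AD l \ ⋃ l' ∈ {l' | l' ∈ L ∧ ι l' < ι l}, AD l', ?_, ?_⟩
  · intro l hl
    refine ⟨Set.sdiff_subset, ?_⟩
    have hfin : {l' | l' ∈ L ∧ ι l' < ι l}.Finite := by
      apply Set.Finite.of_finite_image (f := ι)
      · exact (Set.finite_Iio (ι l)).subset (by rintro _ ⟨l', ⟨_, h⟩, rfl⟩; exact h)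
      · intro a ha b hb hab
        exact hι ha.1 hb.1 hab
    have h2 : AD l \ (AD l \ ⋃ l' ∈ {l' | l' ∈ L ∧ ι l' < ι l}, AD l') ⊆
        ⋃ l' ∈ {l' | l' ∈ L ∧ ι l' < ι l}, (AD l ∩ AD l') := by
      intro j hj
      simp only [Set.mem_sdiff, not_and, not_not] at hj
      have h3 := hj.2 hj.1
      simp only [Set.mem_iUnion] at h3 ⊢
      obtain ⟨l', hl', hj'⟩ := h3
      exact ⟨l', hl', hj.1, hj'⟩
    refine Set.Finite.subset (hfin.biUnion fun l' hl' => AD_inter l l' ?_) h2
    rintro rfl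
    exact lt_irrefl _ hl'.2
  · intro l hl l' hl' hne
    rw [Set.disjoint_left]
    intro j hj hj'
    rcases lt_trichotomy (ι l) (ι l') with h | h | h
    · apply hj'.2
      simp only [Set.mem_iUnion]
      exact ⟨l, ⟨hl, h⟩, hj.1⟩
    · exact hne (hι hl hl' h)
    · apply hj.2
      simp only [Set.mem_iUnion]
      exact ⟨l', ⟨hl', h⟩, hj'.1⟩

/-- The combinatorial core: for countably many labels and linearly independent sequences attached
to them, a linear functional can be prescribed along all the ultrafilters at once. -/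
theorem exists_common_functional {K V : Type*} [Field K] [AddCommGroup V] [Module K V]
    (L : Set Lbl) (hL : L.Countable) (b : Lbl → ℕ → V)
    (hb : ∀ l ∈ L, LinearIndependent K (b l)) (c : Lbl → ℕ → K) :
    ∃ Φ : V →ₗ[K] K, ∀ l ∈ L, ∀ᶠ j in (pp l : Filter ℕ), Φ (b l j) = c l j := by
  classical
  obtain ⟨A', hA', hdis⟩ := disjointify L hL
  set Q : ℕ → Lbl → Prop := fun j l => l ∈ L ∧ ∃ m ∈ A' l, j ∈ blk m with hQ
  have hQu : ∀ j l l', Q j l → Q j l' → l = l' := by
    rintro j l l' ⟨hl, m, hm, hj⟩ ⟨hl', m', hm', hj'⟩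
    have := blk_unique hj hj'
    subst this
    by_contra hne
    exact Set.disjoint_left.1 (hdis l hl l' hl' hne) hm hm'
  set B : ℕ → V := fun j => if h : ∃ l, Q j l then b h.choose j else 0 with hB
  have hBl : ∀ j l, Q j l → B j = b l j := by
    intro j l h
    have h' : ∃ l, Q j l := ⟨l, h⟩
    have h1 : B j = b h'.choose j := by simp only [hB, dif_pos h']
    rw [h1, hQu j _ _ h'.choose_spec h]
  set cc : ℕ → K := fun j => if h : ∃ l, Q j l then c h.choose j else 0 with hcc
  have hcl : ∀ j l, Q j l → cc j = c l j := by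
    intro j l h
    have h' : ∃ l, Q j l := ⟨l, h⟩
    have h1 : cc j = c h'.choose j := by simp only [hcc, dif_pos h']
    rw [h1, hQu j _ _ h'.choose_spec h]
  obtain ⟨Φ, hΦ⟩ := exists_functional (fun j : FF (K := K) B => B j) (ff_indep B)
    (fun j => cc j)
  refine ⟨Φ, fun l hl => ?_⟩
  have hmem : {j | j ∈ FF (K := K) B ∧ Q j l} ∈ Fil (AD l) := by
    obtain ⟨N, hN⟩ := (hA' l hl).2.bddAbove
    refine mem_Fil.2 ⟨1, N + 1, fun m hm hNm => ?_⟩
    have hmA : m ∈ A' l := by
      by_contra h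
      have := hN ⟨hm, h⟩
      omega
    have h1 : blk m \ {j | j ∈ FF (K := K) B ∧ Q j l} = blk m \ FF (K := K) B := by
      ext j
      simp only [Set.mem_sdiff, Set.mem_ofPred_eq, not_and]
      constructor
      · rintro ⟨hj, h⟩
        exact ⟨hj, fun h' => h h' ⟨hl, m, hmA, hj⟩⟩
      · rintro ⟨hj, h⟩
        exact ⟨hj, fun h' => absurd h' h⟩
    rw [h1, one_mul]
    apply ff_count (K := K) B m.factorial (m + 1).factorial
    have h2 : (fun j : Set.Ico m.factorial (m + 1).factorial => B j) =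
        (b l) ∘ (fun j : Set.Ico m.factorial (m + 1).factorial => (j : ℕ)) := by
      funext j
      exact hBl j l ⟨hl, m, hmA, j.2⟩
    rw [h2]
    exact (hb l hl).comp _ Subtype.val_injective
  filter_upwards [pp_le l hmem] with j hj
  have := hΦ ⟨j, hj.1⟩
  simp only at this
  rw [hBl j l hj.2, hcl j l hj.2] at this
  exact this

/-- Ultrafilter limit of a sequence in `ZMod 2`. -/
noncomputable def ulim (p : Ultrafilter ℕ) (u : ℕ → ZMod 2) : ZMod 2 := by
  classical exact if {j | u j = 1} ∈ p then 1 else 0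

theorem zmod2_cases (a : ZMod 2) : a = 0 ∨ a = 1 := by
  revert a; decide

theorem ulim_spec (p : Ultrafilter ℕ) (u : ℕ → ZMod 2) :
    ∀ᶠ j in (p : Filter ℕ), u j = ulim p u := by
  classical
  unfold ulim
  split_ifs with h
  · exact h
  · have h1 : {j | u j = 1}ᶜ ∈ p := Ultrafilter.compl_mem_iff_notMem.2 h
    filter_upwards [h1] with j hj
    rcases zmod2_cases (u j) with h0 | h0
    · exact h0
    · exact absurd h0 hj

theorem ulim_eq {p : Ultrafilter ℕ} {u : ℕ → ZMod 2} {c : ZMod 2}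
    (h : ∀ᶠ j in (p : Filter ℕ), u j = c) : ulim p u = c := by
  obtain ⟨j, hj⟩ := ((ulim_spec p u).and h).exists
  rw [← hj.1, hj.2]

end Pool.Agent.TH732.CC
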